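import Pool.Agent.Helper14.FO.Defs2

/-! MP_190084_co, second part: duality for the Lovász number. -/

set_option autoImplicit false

namespace Pool.Agent.Helper14.FO

open Finset
open scoped MatrixOrder

/-- symmetric positive semidefinite matrices with trace one -/
def sdp_D (V : Type) [Fintype V] : Set (V → V → ℝ) := {B | (∀ x y, B x y = B y x) ∧
  (∀ f : V → ℝ, 0 ≤ ∑ x, ∑ y, B x y * f x * f y) ∧ ∑ x, B x x = 1}

/-- matrices supported on edges and the diagonal with large sum -/
def sdp_T {V : Type} [Fintype V] (X : SimpleGraph V) (θ : ℝ) : Set (V → V → ℝ) :=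
  {B | (∀ x y, x ≠ y → ¬ X.Adj x y → B x y = 0) ∧ θ ≤ ∑ x, ∑ y, B x y}

theorem sdp_convD (V : Type) [Fintype V] : Convex ℝ (sdp_D V) := by
  intro B hB C hC a b ha hb hab
  refine ⟨?_, ?_, ?_⟩
  · intro x y
    simp only [Pi.add_apply, Pi.smul_apply, smul_eq_mul]
    rw [hB.1 x y, hC.1 x y]
  · intro f
    have h1 := hB.2.1 f
    have h2 := hC.2.1 f
    have h3 : ∑ x, ∑ y, (a • B + b • C) x y * f x * f y =
        a * ∑ x, ∑ y, B x y * f x * f y + b * ∑ x, ∑ y, C x y * f x * f y := by
      simp only [Pi.add_apply, Pi.smul_apply, smul_eq_mul, mul_sum, ← sum_add_distrib]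
      exact sum_congr rfl fun x _ => sum_congr rfl fun y _ => by ring
    rw [h3]
    positivity
  · simp only [Pi.add_apply, Pi.smul_apply, smul_eq_mul, sum_add_distrib, ← mul_sum]
    rw [hB.2.2, hC.2.2]
    linarith

theorem sdp_convT {V : Type} [Fintype V] (X : SimpleGraph V) (θ : ℝ) : Convex ℝ (sdp_T X θ) := by
  intro B hB C hC a b ha hb hab
  refine ⟨?_, ?_⟩
  · intro x y hne hnA
    simp only [Pi.add_apply, Pi.smul_apply, smul_eq_mul]
    rw [hB.1 x y hne hnA, hC.1 x y hne hnA]
    ring
  · simp only [Pi.add_apply, Pi.smul_apply, smul_eq_mul, sum_add_distrib, ← mul_sum]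
    have h1 := mul_le_mul_of_nonneg_left hB.2 ha
    have h2 := mul_le_mul_of_nonneg_left hC.2 hb
    have h3 : a * θ + b * θ = θ := by rw [← add_mul, hab, one_mul]
    linarith

theorem sdp_closedT {V : Type} [Fintype V] (X : SimpleGraph V) (θ : ℝ) :
    IsClosed (sdp_T X θ) := by
  have h1 : sdp_T X θ = (⋂ (x : V) (y : V) (_ : x ≠ y) (_ : ¬ X.Adj x y),
      {B : V → V → ℝ | B x y = 0}) ∩ {B | θ ≤ ∑ x, ∑ y, B x y} := by
    ext B
    simp only [sdp_T, Set.mem_ofPred_eq, Set.mem_inter_iff, Set.mem_iInter]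
  rw [h1]
  refine IsClosed.inter ?_ ?_
  · refine isClosed_iInter fun x => isClosed_iInter fun y => isClosed_iInter fun _ =>
      isClosed_iInter fun _ => isClosed_eq (by fun_prop) continuous_const
  · exact isClosed_le continuous_const (by fun_prop)

theorem sdp_closedD (V : Type) [Fintype V] : IsClosed (sdp_D V) := by
  have h1 : sdp_D V = (⋂ (x : V) (y : V), {B : V → V → ℝ | B x y = B y x}) ∩
      ((⋂ f : V → ℝ, {B : V → V → ℝ | 0 ≤ ∑ x, ∑ y, B x y * f x * f y}) ∩
        {B | ∑ x, B x x = 1}) := by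
    ext B
    simp only [sdp_D, Set.mem_ofPred_eq, Set.mem_inter_iff, Set.mem_iInter]
  rw [h1]
  refine IsClosed.inter ?_ (IsClosed.inter ?_ ?_)
  · exact isClosed_iInter fun x => isClosed_iInter fun y => isClosed_eq (by fun_prop) (by fun_prop)
  · exact isClosed_iInter fun f => isClosed_le continuous_const (by fun_prop)
  · exact isClosed_eq (by fun_prop) continuous_const

theorem sdp_quad {V : Type} [Fintype V] [DecidableEq V] (B : V → V → ℝ) (a b : V) (s t : ℝ) :
    ∑ x, ∑ y, B x y * ((if x = a then s else 0) + (if x = b then t else 0)) *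
      ((if y = a then s else 0) + (if y = b then t else 0)) =
    B a a * s * s + B a b * s * t + B b a * t * s + B b b * t * t := by
  have h : ∀ x y, B x y * ((if x = a then s else 0) + (if x = b then t else 0)) *
      ((if y = a then s else 0) + (if y = b then t else 0)) =
      (if x = a then (if y = a then B x y * s * s else 0) else 0) +
      (if x = a then (if y = b then B x y * s * t else 0) else 0) +
      (if x = b then (if y = a then B x y * t * s else 0) else 0) +
      (if x = b then (if y = b then B x y * t * t else 0) else 0) := by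
    intro x y
    split_ifs <;> ring
  simp only [h, sum_add_distrib]
  simp [sum_ite_eq', sum_ite_irrel]

theorem sdp_bdD {V : Type} [Fintype V] [DecidableEq V] (B : V → V → ℝ) (hB : B ∈ sdp_D V)
    (x y : V) : B x y ∈ Set.Icc (-1 : ℝ) 1 := by
  have h0 : ∀ x, 0 ≤ B x x := by
    intro x
    have h := hB.2.1 (fun z => (if z = x then 1 else 0) + (if z = x then 0 else 0))
    rw [sdp_quad B x x 1 0] at h
    linarith
  have h1 : ∀ x, B x x ≤ 1 := by
    intro x
    rw [← hB.2.2]
    exact single_le_sum (fun z _ => h0 z) (mem_univ x)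
  have h2 := hB.2.1 (fun z => (if z = x then 1 else 0) + (if z = y then 1 else 0))
  have h3 := hB.2.1 (fun z => (if z = x then 1 else 0) + (if z = y then -1 else 0))
  rw [sdp_quad] at h2 h3
  have h4 := hB.1 x y
  have := h1 x
  have := h1 y
  constructor <;> linarith

theorem sdp_compD (V : Type) [Fintype V] [DecidableEq V] : IsCompact (sdp_D V) := by
  have h : IsCompact (Set.pi Set.univ fun _ : V => Set.pi Set.univ fun _ : V =>
      Set.Icc (-1 : ℝ) 1) :=
    isCompact_univ_pi fun _ => isCompact_univ_pi fun _ => isCompact_Icc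
  refine h.of_isClosed_subset (sdp_closedD V) ?_
  intro B hB x _ y _
  exact sdp_bdD B hB x y

theorem sdp_rep {V : Type} [Fintype V] [DecidableEq V] (f : (V → V → ℝ) →L[ℝ] ℝ)
    (B : V → V → ℝ) :
    f B = ∑ x, ∑ y, f (Pi.single x (Pi.single y (1 : ℝ))) * B x y := by
  have h : B = ∑ x, ∑ y, B x y • (Pi.single x (Pi.single y (1 : ℝ)) : V → V → ℝ) := by
    ext a b
    simp only [Finset.sum_apply, Pi.smul_apply, smul_eq_mul]
    rw [sum_eq_single a, sum_eq_single b]
    · simp
    · intro y _ hy
      simp [Pi.single_eq_of_ne (Ne.symm hy)]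
    · simp
    · intro x _ hx
      exact sum_eq_zero fun y _ => by simp [Pi.single_eq_of_ne (Ne.symm hx)]
    · simp
  conv_lhs => rw [h]
  simp only [map_sum, map_smul, smul_eq_mul]
  exact sum_congr rfl fun x _ => sum_congr rfl fun y _ => mul_comm _ _

theorem st_SDP : ST_SDP := by
  intro V _ _ X θ hθ hU
  by_contra hno
  have hdis : Disjoint (sdp_D V) (sdp_T X θ) := by
    rw [Set.disjoint_left]
    intro B hB hT
    exact hno ⟨B, hB.1, hB.2.1, hT.1, hB.2.2, hT.2⟩
  obtain ⟨f, u, v, hu, huv, hv⟩ := geometric_hahn_banach_compact_closed (sdp_convD V)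
    (sdp_compD V) (sdp_convT X θ) (sdp_closedT X θ) hdis
  rcases isEmpty_or_nonempty V with hV | ⟨⟨x0⟩⟩
  · exact hU ⟨0, fun x => hV.elim x, fun y => hV.elim y, fun x => hV.elim x⟩
  obtain ⟨F, hF⟩ : ∃ F : V → V → ℝ, F = fun x y => f (Pi.single x (Pi.single y (1 : ℝ))) :=
    ⟨_, rfl⟩
  have hrep : ∀ B : V → V → ℝ, f B = ∑ x, ∑ y, F x y * B x y := by
    intro B
    rw [sdp_rep f B, hF]
  -- allowed positions
  have hsum1 : ∀ x y, ∑ a, ∑ b, (Pi.single x (Pi.single y (1 : ℝ)) : V → V → ℝ) a b = 1 := by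
    intro x y
    rw [sum_eq_single x, sum_eq_single y]
    · simp
    · intro b _ hb
      simp [hb]
    · simp
    · intro a _ ha
      exact sum_eq_zero fun b _ => by simp [ha]
    · simp
  have hsup : ∀ x y, (x = y ∨ X.Adj x y) → ∀ a b, a ≠ b → ¬ X.Adj a b →
      (Pi.single x (Pi.single y (1 : ℝ)) : V → V → ℝ) a b = 0 := by
    intro x y hxy a b hab hnA
    by_cases hax : a = x
    · subst hax
      by_cases hby : b = y
      · subst hby
        rcases hxy with h | h
        · exact absurd h hab
        · exact absurd h hnA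
      · simp [hby]
    · simp [hax]
  have hB0 : ∀ s : ℝ, ∀ x y, (x = y ∨ X.Adj x y) →
      v < θ * F x0 x0 + s * (F x y - F x0 x0) := by
    intro s x y hxy
    have hmem : (θ - s) • (Pi.single x0 (Pi.single x0 (1 : ℝ)) : V → V → ℝ) +
        s • (Pi.single x (Pi.single y (1 : ℝ)) : V → V → ℝ) ∈ sdp_T X θ := by
      refine ⟨?_, ?_⟩
      · intro a b hab hnA
        simp only [Pi.add_apply, Pi.smul_apply, smul_eq_mul]
        rw [hsup x0 x0 (Or.inl rfl) a b hab hnA, hsup x y hxy a b hab hnA]
        ring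
      · simp only [Pi.add_apply, Pi.smul_apply, smul_eq_mul, sum_add_distrib, ← mul_sum]
        rw [hsum1, hsum1]
        linarith
    have h := hv _ hmem
    rw [map_add, map_smul, map_smul, smul_eq_mul, smul_eq_mul] at h
    have h1 : f (Pi.single x0 (Pi.single x0 (1 : ℝ))) = F x0 x0 := by rw [hF]
    have h2 : f (Pi.single x (Pi.single y (1 : ℝ))) = F x y := by rw [hF]
    rw [h1, h2] at h
    linarith
  have hconst : ∀ x y, (x = y ∨ X.Adj x y) → F x y = F x0 x0 := by
    intro x y hxy
    by_contra hne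
    have hd : F x y - F x0 x0 ≠ 0 := sub_ne_zero.mpr hne
    have h := hB0 ((v - θ * F x0 x0) / (F x y - F x0 x0)) x y hxy
    rw [div_mul_cancel₀ _ hd] at h
    linarith
  have hvα : v < θ * F x0 x0 := by
    have h := hB0 0 x0 x0 (Or.inl rfl)
    linarith
  -- outer products
  have hout : ∀ g : V → ℝ, ∑ x, g x ^ 2 = 1 → ∑ x, ∑ y, F x y * (g x * g y) < u := by
    intro g hg
    have hmem : (fun x y => g x * g y) ∈ sdp_D V := by
      refine ⟨fun x y => mul_comm _ _, ?_, ?_⟩
      · intro h
        have h1 : ∑ x, ∑ y, g x * g y * h x * h y = (∑ x, g x * h x) ^ 2 := by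
          rw [sq, sum_mul_sum]
          exact sum_congr rfl fun x _ => sum_congr rfl fun y _ => by ring
        rw [h1]
        positivity
      · rw [← hg]
        exact sum_congr rfl fun x _ => by ring
    have h := hu _ hmem
    rwa [hrep] at h
  have hα : 0 < F x0 x0 := by
    have h := hout (fun z => if z = x0 then 1 else 0) (by simp)
    have h1 : ∑ x, ∑ y, F x y * ((if x = x0 then (1 : ℝ) else 0) * (if y = x0 then 1 else 0)) =
        F x0 x0 := by
      rw [sum_eq_single x0, sum_eq_single x0]
      · simp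
      · intro b _ hb
        simp [hb]
      · simp
      · intro a _ ha
        exact sum_eq_zero fun b _ => by simp [ha]
      · simp
    rw [h1] at h
    nlinarith
  obtain ⟨α, hαd⟩ : ∃ α : ℝ, α = F x0 x0 := ⟨_, rfl⟩
  rw [← hαd] at hα hvα hconst
  have hquad : ∀ g : V → ℝ, ∑ x, ∑ y, F x y * (g x * g y) ≤ α * θ * ∑ x, g x ^ 2 := by
    intro g
    by_cases hg : ∑ x, g x ^ 2 = 0
    · have hz : ∀ x, g x = 0 := by
        intro x
        have h := (sum_eq_zero_iff_of_nonneg (fun z _ => sq_nonneg (g z))).mp hg x (mem_univ x)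
        exact pow_eq_zero_iff (two_ne_zero) |>.mp h
      simp [hz]
    · have hpos : 0 < ∑ x, g x ^ 2 := lt_of_le_of_ne (sum_nonneg fun z _ => sq_nonneg (g z))
        (Ne.symm hg)
      obtain ⟨r, hr⟩ : ∃ r : ℝ, r = Real.sqrt (∑ x, g x ^ 2) := ⟨_, rfl⟩
      have hr0 : 0 < r := by rw [hr]; exact Real.sqrt_pos.mpr hpos
      have hr2 : r ^ 2 = ∑ x, g x ^ 2 := by rw [hr]; exact Real.sq_sqrt hpos.le
      have h1 := hout (fun x => g x / r) (by
        have : ∀ x, (g x / r) ^ 2 = (1 / r ^ 2) * g x ^ 2 := fun x => by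
          field_simp
        simp only [this, ← mul_sum]
        rw [← hr2]
        field_simp)
      have h2 : ∑ x, ∑ y, F x y * (g x / r * (g y / r)) =
          (1 / r ^ 2) * ∑ x, ∑ y, F x y * (g x * g y) := by
        simp only [mul_sum]
        exact sum_congr rfl fun x _ => sum_congr rfl fun y _ => by field_simp
      rw [h2] at h1
      have h3 : (1 / r ^ 2) * ∑ x, ∑ y, F x y * (g x * g y) < α * θ := by linarith
      rw [← hr2]
      have h4 : 0 < r ^ 2 := by positivity
      rw [one_div, inv_mul_lt_iff₀ h4] at h3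
      linarith
  -- Gram matrix
  obtain ⟨G, hGe⟩ : ∃ G : Matrix V V ℝ, ∀ x y, G x y =
      (if x = y then θ else 0) - (F x y + F y x) / (2 * α) :=
    ⟨Matrix.of fun x y => (if x = y then θ else 0) - (F x y + F y x) / (2 * α), fun _ _ => rfl⟩
  have hG : G.PosSemidef := by
    refine Matrix.PosSemidef.of_dotProduct_mulVec_nonneg ?_ ?_
    · refine Matrix.IsHermitian.ext fun x y => ?_
      rw [star_trivial, hGe, hGe]
      by_cases h : x = y
      · subst h; rfl
      · rw [if_neg h, if_neg (Ne.symm h)]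
        ring
    · intro g
      simp only [star_trivial, dotProduct, Matrix.mulVec, hGe]
      have h1 : ∑ x, g x * ∑ y, ((if x = y then θ else 0) - (F x y + F y x) / (2 * α)) * g y =
          θ * ∑ x, g x ^ 2 - (1 / α) * ∑ x, ∑ y, F x y * (g x * g y) := by
        have h2 : ∀ x, g x * ∑ y, ((if x = y then θ else 0) - (F x y + F y x) / (2 * α)) * g y =
            θ * g x ^ 2 - (1 / (2 * α)) * ∑ y, F x y * (g x * g y) -
              (1 / (2 * α)) * ∑ y, F y x * (g y * g x) := by
          intro x
          have h5 : ∀ y, ((if x = y then θ else 0) - (F x y + F y x) / (2 * α)) * g y =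
              (if x = y then θ * g y else 0) - (F x y / (2 * α) * g y + F y x / (2 * α) * g y) := by
            intro y
            split_ifs <;> ring
          simp only [h5, sum_sub_distrib, sum_ite_eq, mem_univ, if_true, sum_add_distrib,
            mul_sub, mul_add, mul_sum]
          have h3 : ∑ y, g x * (F x y / (2 * α) * g y) = ∑ y, 1 / (2 * α) * (F x y * (g x * g y)) :=
            sum_congr rfl fun y _ => by ring
          have h4 : ∑ y, g x * (F y x / (2 * α) * g y) = ∑ y, 1 / (2 * α) * (F y x * (g y * g x)) :=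
            sum_congr rfl fun y _ => by ring
          rw [h3, h4]
          ring
        simp only [h2, sum_sub_distrib, ← mul_sum]
        have h6 : ∑ x, ∑ y, F y x * (g y * g x) = ∑ x, ∑ y, F x y * (g x * g y) := by
          rw [sum_comm]
        rw [h6]
        field_simp
        ring
      rw [h1]
      have h7 := hquad g
      have h8 : (1 / α) * ∑ x, ∑ y, F x y * (g x * g y) ≤ (1 / α) * (α * θ * ∑ x, g x ^ 2) :=
        mul_le_mul_of_nonneg_left h7 (by positivity)
      have h9 : (1 / α) * (α * θ * ∑ x, g x ^ 2) = θ * ∑ x, g x ^ 2 := by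
        field_simp
      linarith
  obtain ⟨C, hC⟩ := CStarAlgebra.nonneg_iff_eq_star_mul_self.mp hG.nonneg
  have hent : ∀ x y, ∑ i, C i x * C i y = G x y := by
    intro x y
    rw [hC, Matrix.mul_apply]
    exact sum_congr rfl fun i _ => by simp [Matrix.star_apply]
  refine hU ⟨Fintype.card V, fun x i => C ((Fintype.equivFin V).symm i) x, ?_, ?_⟩
  · intro y
    have h1 : ∑ i, C ((Fintype.equivFin V).symm i) y ^ 2 = ∑ i, C i y * C i y := by
      rw [← Equiv.sum_comp (Fintype.equivFin V).symm]
      exact sum_congr rfl fun i _ => by ring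
    rw [h1, hent, hGe]
    rw [if_pos rfl, hconst y y (Or.inl rfl)]
    field_simp
    ring
  · intro x y hxy
    have h1 : ∑ i, C ((Fintype.equivFin V).symm i) x * C ((Fintype.equivFin V).symm i) y =
        ∑ i, C i x * C i y :=
      Equiv.sum_comp (Fintype.equivFin V).symm fun i => C i x * C i y
    rw [h1, hent, hGe]
    rw [if_neg hxy.ne, hconst x y (Or.inr hxy), hconst y x (Or.inr hxy.symm)]
    field_simp
    ring

end Pool.Agent.Helper14.FO
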